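import Pool.Agent.Helper29.AP.Defs

/-!
MP_689b4c_al, module AP-1: closure properties of linear sets (finite unions of projections of
sets of integer solutions of systems of linear equations).
-/

set_option autoImplicit false

namespace Pool.Agent.AP

section LS
variable {M N : Type} [AddCommGroup M] [AddCommGroup N]

/-- a single system of equations -/
theorem LinSet.eq {V : Type} [AddCommGroup V] [Module.Finite ℤ V] [Module.Free ℤ V]
    (φ : M →+ V) (c : V) : LinSet (fun a => φ a = c) :=
  ⟨Unit, inferInstance, PUnit, inferInstance, inferInstance, V, inferInstance, inferInstance,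
    inferInstance, fun _ => φ.comp (AddMonoidHom.fst M PUnit), fun _ => c, fun a => by simp⟩

theorem LinSet.top : LinSet (fun _ : M => True) := by
  have h := LinSet.eq (M := M) (V := PUnit) 0 0
  simpa using h

theorem LinSet.or {P Q : M → Prop} (hP : LinSet P) (hQ : LinSet Q) :
    LinSet (fun a => P a ∨ Q a) := by
  obtain ⟨T, _, E, _, _, V, _, _, _, L, κ, h⟩ := hP
  obtain ⟨T', _, E', _, _, V', _, _, _, L', κ', h'⟩ := hQ
  refine ⟨T ⊕ T', inferInstance, E × E', inferInstance, inferInstance, V × V', inferInstance,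
    inferInstance, inferInstance,
    Sum.elim
      (fun t => (AddMonoidHom.inl V V').comp ((L t).comp
        (AddMonoidHom.prodMap (AddMonoidHom.id M) (AddMonoidHom.fst E E'))))
      (fun t => (AddMonoidHom.inr V V').comp ((L' t).comp
        (AddMonoidHom.prodMap (AddMonoidHom.id M) (AddMonoidHom.snd E E')))),
    Sum.elim (fun t => (κ t, 0)) (fun t => (0, κ' t)), fun a => ?_⟩
  constructor
  · rintro (ha | ha)
    · obtain ⟨τ, e, he⟩ := (h a).1 ha
      exact ⟨Sum.inl τ, (e, 0), by simp [he]⟩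
    · obtain ⟨τ, e, he⟩ := (h' a).1 ha
      exact ⟨Sum.inr τ, (0, e), by simp [he]⟩
  · rintro ⟨τ | τ, e, he⟩
    · refine Or.inl ((h a).2 ⟨τ, e.1, ?_⟩)
      simpa using he
    · refine Or.inr ((h' a).2 ⟨τ, e.2, ?_⟩)
      simpa using he

theorem LinSet.and {P Q : M → Prop} (hP : LinSet P) (hQ : LinSet Q) :
    LinSet (fun a => P a ∧ Q a) := by
  obtain ⟨T, _, E, _, _, V, _, _, _, L, κ, h⟩ := hP
  obtain ⟨T', _, E', _, _, V', _, _, _, L', κ', h'⟩ := hQ
  refine ⟨T × T', inferInstance, E × E', inferInstance, inferInstance, V × V', inferInstance,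
    inferInstance, inferInstance,
    fun t => AddMonoidHom.prod
      ((L t.1).comp (AddMonoidHom.prodMap (AddMonoidHom.id M) (AddMonoidHom.fst E E')))
      ((L' t.2).comp (AddMonoidHom.prodMap (AddMonoidHom.id M) (AddMonoidHom.snd E E'))),
    fun t => (κ t.1, κ' t.2), fun a => ?_⟩
  constructor
  · rintro ⟨ha, ha'⟩
    obtain ⟨τ, e, he⟩ := (h a).1 ha
    obtain ⟨τ', e', he'⟩ := (h' a).1 ha'
    exact ⟨(τ, τ'), (e, e'), by simp [he, he']⟩
  · rintro ⟨τ, e, he⟩
    have h1 := congrArg Prod.fst he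
    have h2 := congrArg Prod.snd he
    exact ⟨(h a).2 ⟨τ.1, e.1, by simpa using h1⟩, (h' a).2 ⟨τ.2, e.2, by simpa using h2⟩⟩

theorem LinSet.comap {P : M → Prop} (hP : LinSet P) {f : N → M} (hf : Aff f) :
    LinSet (fun a => P (f a)) := by
  obtain ⟨T, _, E, _, _, V, _, _, _, L, κ, h⟩ := hP
  obtain ⟨φ, c, hf⟩ := hf
  refine ⟨T, inferInstance, E, inferInstance, inferInstance, V, inferInstance,
    inferInstance, inferInstance,
    fun t => (L t).comp (AddMonoidHom.prodMap φ (AddMonoidHom.id E)),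
    fun t => κ t - L t (c, 0), fun a => ?_⟩
  refine (h (f a)).trans ?_
  refine exists_congr fun τ => exists_congr fun e => ?_
  have : L τ (f a, e) = L τ (φ a, e) + L τ (c, 0) := by
    rw [← map_add]; simp [hf]
  rw [this, eq_sub_iff_add_eq]
  rfl

theorem LinSet.ex [Module.Finite ℤ N] {P : M × N → Prop} (hP : LinSet P) :
    LinSet (fun a => ∃ b, P (a, b)) := by
  obtain ⟨T, _, E, _, _, V, _, _, _, L, κ, h⟩ := hP
  refine ⟨T, inferInstance, N × E, inferInstance, inferInstance, V, inferInstance,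
    inferInstance, inferInstance,
    fun t => (L t).comp (AddEquiv.prodAssoc : (M × N) × E ≃+ M × N × E).symm.toAddMonoidHom,
    κ, fun a => ?_⟩
  constructor
  · rintro ⟨b, hb⟩
    obtain ⟨τ, e, he⟩ := (h _).1 hb
    exact ⟨τ, (b, e), he⟩
  · rintro ⟨τ, e, he⟩
    exact ⟨e.1, (h _).2 ⟨τ, e.2, he⟩⟩

/-- the image of a linear set under an affine map -/
theorem LinSet.image [Module.Finite ℤ M] [Module.Finite ℤ N] [Module.Free ℤ N]
    {P : M → Prop} (hP : LinSet P) {f : M → N} (hf : Aff f) :
    LinSet (fun b => ∃ a, P a ∧ f a = b) := by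
  have h1 : LinSet (fun p : N × M => P p.2) :=
    hP.comap (f := Prod.snd) ⟨AddMonoidHom.snd N M, 0, fun x => by simp⟩
  obtain ⟨φ, c, hf⟩ := hf
  have h2 : LinSet (fun p : N × M => f p.2 = p.1) := by
    have := LinSet.eq (AddMonoidHom.fst N M - φ.comp (AddMonoidHom.snd N M)) c
    refine (iff_of_eq (congrArg LinSet (funext fun p => propext ?_))).1 this
    rw [hf]
    simp only [AddMonoidHom.sub_apply, AddMonoidHom.coe_fst, AddMonoidHom.comp_apply,
      AddMonoidHom.coe_snd]
    rw [sub_eq_iff_eq_add, add_comm, eq_comm]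
  exact (h1.and h2).ex

end LS

end Pool.Agent.AP
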