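import Mathlib

/-!
MP_689b4c_al, module AP-9: from an undecidable family of conjugacy problems
`u ∼ s ^ n * x * s⁻¹ ^ n * y * u` to the undecidability of the conjugacy problem for words.
-/

set_option autoImplicit false

namespace Pool.Agent.AP

/-- the word `w` repeated `n` times -/
def rep {α : Type} (w : List α) (n : ℕ) : List α :=
  Nat.rec (motive := fun _ => List α) [] (fun _ l => w ++ l) n

theorem rep_primrec {α : Type} [Primcodable α] (w : List α) : Primrec (rep w) :=
  Primrec.nat_rec₁ [] (Primrec.list_append.comp (Primrec.const w) Primrec.snd)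

theorem map_rep {G : Type} [Group G] {k : ℕ} (f : FreeGroup (Fin k) →* G)
    (w : List (Fin k × Bool)) (n : ℕ) :
    f (FreeGroup.mk (rep w n)) = f (FreeGroup.mk w) ^ n := by
  induction n with
  | zero =>
    show f (FreeGroup.mk []) = _
    rw [← FreeGroup.one_eq_mk, map_one, pow_zero]
  | succ n ih =>
    show f (FreeGroup.mk (w ++ rep w n)) = _
    rw [← FreeGroup.mul_mk, map_mul, ih, pow_succ']

theorem not_computable {G : Type} [Group G] {k : ℕ} (f : FreeGroup (Fin k) →* G)
    (hf : Function.Surjective f) (u x y s : G) {E : ℕ → Prop}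
    (h : ∀ n : ℕ, IsConj u (s ^ n * x * s⁻¹ ^ n * y * u) ↔ E n) {N : ℕ → ℕ} (hN : Computable N)
    (hE : ¬ ComputablePred (fun n => E (N n))) :
    ¬ ComputablePred (fun p : List (Fin k × Bool) × List (Fin k × Bool) =>
          IsConj (f (FreeGroup.mk p.1)) (f (FreeGroup.mk p.2))) := by
  have hw : ∀ g : G, ∃ w : List (Fin k × Bool), f (FreeGroup.mk w) = g := by
    intro g
    obtain ⟨a, rfl⟩ := hf g
    exact ⟨a.toWord, by rw [FreeGroup.mk_toWord]⟩
  obtain ⟨wu, hu⟩ := hw u
  obtain ⟨wx, hx⟩ := hw x
  obtain ⟨wy, hy⟩ := hw y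
  obtain ⟨ws, hs⟩ := hw s
  obtain ⟨wt, ht⟩ := hw s⁻¹
  intro hC
  apply hE
  refine ComputablePred.computable_of_manyOneReducible ?_ hC
  refine ⟨fun n => (wu, rep ws (N n) ++ wx ++ rep wt (N n) ++ wy ++ wu), ?_, fun n => ?_⟩
  · have h1 : Computable (fun n => rep ws (N n)) := (rep_primrec ws).to_comp.comp hN
    have h2 : Computable (fun n => rep wt (N n)) := (rep_primrec wt).to_comp.comp hN
    refine Computable.pair (Computable.const wu) ?_
    have ha : Computable₂ (fun a b : List (Fin k × Bool) => a ++ b) :=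
      Primrec.list_append.to_comp
    exact ha.comp (ha.comp (ha.comp (ha.comp h1 (Computable.const wx)) h2)
      (Computable.const wy)) (Computable.const wu)
  · refine (h (N n)).symm.trans ?_
    simp only [← FreeGroup.mul_mk, map_mul, map_rep, hu, hx, hy, hs, ht]

end Pool.Agent.AP
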